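import Pool.Agent.LibK.Base

/-!
THEOREM K+ (good minimal models for klt pairs on varieties with a torus action of complexity at most
two whose quotient surface has irregularity zero): base definitions and interfaces.
-/

set_option autoImplicit false

open Pool.Agent.LibGMM Pool.Agent.LibK

namespace Pool.Agent.LibL

section

variable {L : Type} [Field L] [Algebra ℂ L]

/-- The maximal ideal of the local ring of `Y` at the point `p`. -/
def maxLoc (Y : NormalModel L) (p : Y.Pt) : Set L :=
  {x | ∃ a b : chart Y.g p.i, a ∈ p.P ∧ b ∉ p.P ∧ x = (a : L) / b}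

/-- `Y` is a smooth projective surface: the function field has transcendence degree `2` and the
maximal ideals of the local rings of the closed points are generated by two elements. -/
structure IsSmoothSurface (Y : NormalModel L) : Prop where
  dim : Algebra.trdeg ℂ L = 2
  smooth : ∀ p : Y.Pt, p.P.IsMaximal → ∃ a ∈ maxLoc Y p, ∃ b ∈ maxLoc Y p,
    ∀ x ∈ maxLoc Y p, ∃ u ∈ Y.loc p, ∃ v ∈ Y.loc p, x = u * a + v * b

/-- The dimension of the space of sections of the divisor `D` on `Y`. -/
noncomputable def h0Y (Y : NormalModel L) (D : DVal L → ℤ) : ℕ :=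
  Module.finrank ℂ (H0 (primes Y) fun ν => (D ν : ℚ))

/-- The surface `Y` has irregularity `0`: the arithmetic genus is the geometric genus,
`χ(𝒪_Y) = 1 + h⁰(K_Y)`, where `χ(𝒪_Y)` is the constant term of the Hilbert polynomial, the divisor
class group is finitely generated, and numerically trivial divisors (`D` and `-D` are
pseudo-effective) are torsion. -/
structure Regular (Y : NormalModel L) : Prop where
  chi : ∀ ω : TopForm L, ω ≠ 0 → ∃ (d e : ℤ) (n₀ : ℕ), ∀ n : ℕ, n₀ ≤ n →
    2 * (h0Y Y (fun ν => n * hypZ Y ν) : ℤ) =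
      2 * (1 + (h0Y Y fun ν => canOrd ν ω : ℤ)) + d * n ^ 2 + e * n
  fg : ∃ T : Finset (DVal L → ℤ), (∀ E ∈ T, {ν | ν ∈ primes Y ∧ E ν ≠ 0}.Finite) ∧
    ∀ D : DVal L → ℤ, {ν | ν ∈ primes Y ∧ D ν ≠ 0}.Finite →
      ∃ (c : (DVal L → ℤ) → ℤ) (f : L), f ≠ 0 ∧
        ∀ ν ∈ primes Y, D ν = ∑ E ∈ T, c E * E ν + ν.ord f
  num : ∀ D : DVal L → ℤ, {ν | ν ∈ primes Y ∧ D ν ≠ 0}.Finite →
    PseudoEff Y (fun ν => (D ν : ℝ)) → PseudoEff Y (fun ν => -(D ν : ℝ)) →
      ∃ (m : ℕ) (f : L), 0 < m ∧ f ≠ 0 ∧ ∀ ν ∈ primes Y, (m : ℤ) * D ν = ν.ord f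

/-- **Interface of parts A+, B+ with part C+**: for every finite set `T` of divisorial valuations
there is a set `P` of prime divisors (those of a model over `Y`) which contains `T` and the prime
divisors of `Y`, and for which adjoint rings are finitely generated. -/
def BaseInterface (Y : NormalModel L) : Prop :=
  ∀ T : Set (DVal L), T.Finite → (∀ ν ∈ T, ν.Divisorial) →
    ∃ P : Set (DVal L), T ⊆ P ∧ primes Y ⊆ P ∧ (P \ primes Y).Finite ∧
      (∀ ν ∈ P, ν.Divisorial) ∧ FinDiv P ∧ HasDegree P ∧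
      ∀ ω : TopForm L, ω ≠ 0 → {ν | ν ∈ P ∧ canOrd ν ω ≠ 0}.Finite ∧
        AdjointFG P (fun ν => canOrd ν ω)

end

section

variable {L : Type} [Field L] [Algebra ℂ L] {K : Type} [Field K] [Algebra ℂ K] [Algebra L K]

variable (L) in
/-- `K` is the field of rational functions over `L` in the variables `t₁, …, t_r`. -/
structure IsTorusExt {r : ℕ} (t : Fin r → Kˣ) : Prop where
  indep : AlgebraicIndependent L fun k => (t k : K)
  gen : IntermediateField.adjoin L (Set.range fun k => (t k : K)) = ⊤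

variable (L) in
/-- The homogeneous coordinates of `X` are semi-invariant for the torus acting on the variables
`t`: `X.g i = fᵢ ∏ t_k ^ u_k` with `fᵢ ∈ L`. -/
def IsTorusStableOver {r : ℕ} (t : Fin r → Kˣ) (X : NormalModel K) : Prop :=
  ∀ i : X.ι, ∃ (f : L) (u : Fin r → ℤ), (X.g i : K) = algebraMap L K f * ∏ k, ((t k : K)) ^ u k

end

/-- **Interface of part C+** (torus, over a base of any positive dimension). -/
def TorusInterfaceB : Prop :=
  ∀ (L : Type) [Field L] [Algebra ℂ L] (Y : NormalModel L), 1 ≤ Algebra.trdeg ℂ L →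
    BaseInterface Y →
    ∀ (K : Type) [Field K] [Algebra ℂ K] [Algebra L K] [IsScalarTower ℂ L K] (r : ℕ)
      (t : Fin r → Kˣ), IsTorusExt L t → ∀ X : NormalModel K, IsTorusStableOver L t X →
      ∀ (ω : TopForm K) (Δ : DVal K → ℝ), ω ≠ 0 → IsKlt X ω Δ → HasFGData X ω Δ

end Pool.Agent.LibL
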